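import Pool.Agent.H93.QG

/-!
For every odd `n > 1` the sum `S_n(q)` is `≡ 0` modulo `[n]` times the product of `Φ_d(q)²` over the
divisors `d > 1` of `n` with `d ≡ 1 mod 4`; in particular it is `≡ 0` modulo `[n] Φ_n(q)²` when
`n ≡ 1 mod 4`, and modulo `[n]` when `n ≡ 3 mod 4`.
-/

namespace Pool.Agent.Results.MP_97831a_nt.FullCongruence

open Polynomial Pool.Agent.H93.QDefs

theorem result :
    (∀ n : ℕ, 1 < n → n % 4 = 1 → CongZero (S n) (bracket n * cyclotomic n ℚ ^ 2)) ∧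
    (∀ n : ℕ, 1 < n → n % 4 = 3 → CongZero (S n) (bracket n)) ∧
    (∀ n : ℕ, 1 < n → Odd n → CongZero (S n)
      (bracket n * ∏ d ∈ (n.divisors.erase 1).filter (fun d => d % 4 = 1), cyclotomic d ℚ ^ 2)) :=
  Pool.Agent.H93.QC.main

end Pool.Agent.Results.MP_97831a_nt.FullCongruence
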